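import Pool.Agent.R377.PA.Final

/-!
# Point arboricity of graphs of bounded reduced genus

`P(g) = 10000 (g + 1)`: every simple graph `G` of reduced genus `g` with `ω(G) ≥ 10000 (g + 1)` has
point arboricity at most `1 + ⌊ω(G) / 2⌋`.

Proof: let `U` be a minimal set of vertices which cannot be partitioned into `m = 1 + ⌊ω / 2⌋`
induced forests; every vertex of `G[U]` has degree at least `2 m ≥ ω + 1`. The boundaries of the
regions of the restricted incidence graph span a subspace of codimension at most `2 g` of its cycle
space, so there are many of them, and most have six edges. Discharging shows that all but few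
vertices lie in a hyperedge of size `ω` and have degree exactly `ω + 1`, and that there is a
hexagonal region through a hyperedge of size `ω` all of whose vertices are of this kind. This gives
four vertices of degree `ω + 1` inducing `K₄` minus an edge, and the colouring of the other vertices
extends to them.
-/

set_option autoImplicit false

open Pool.Agent.R377.PA

/-- **Positive answer to Q1 of MP_e5dbd3_co.** For every `g` there is a constant `P` (namely
`10000 (g + 1)`) such that every finite simple graph `G` of reduced genus `g` and clique number at
least `P` has point arboricity at most `1 + ⌊ω(G) / 2⌋`. -/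
theorem Pool.Agent.Results.MP_e5dbd3_co.PointArboricity.result :
    ∀ g : ℕ, ∃ P : ℕ, P = 10000 * (g + 1) ∧ ∀ (V : Type) [Finite V] (G : SimpleGraph V),
      HasReducedGenus G g → P ≤ G.cliqueNum → PointArboricityLE G (1 + G.cliqueNum / 2) :=
  fun g => ⟨10000 * (g + 1), rfl, fun _ _ G hG hW => main g G hG hW⟩
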